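import Pool.Agent.Helper861.GccMain

set_option autoImplicit false

namespace Pool.Agent.Results.MP_6bf2ef_co.FourThirds

open Pool.Agent.Helper861.Gcc

/-- `q(G)`: the least number of distinct eigenvalues of a real symmetric matrix whose off-diagonal
nonzero pattern is exactly the edge set of `G`. -/
noncomputable def q {n : ℕ} (G : SimpleGraph (Fin n)) : ℕ :=
  sInf {k : ℕ | ∃ A : Matrix (Fin n) (Fin n) ℝ, A.IsSymm ∧
    (∀ i j : Fin n, i ≠ j → (A i j ≠ 0 ↔ G.Adj i j)) ∧ (spectrum ℝ A).ncard = k}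

theorem ncard_spectrum_le {n : ℕ} (A : Matrix (Fin n) (Fin n) ℝ) (hA : A.IsSymm) :
    (spectrum ℝ A).ncard ≤ A.rank + 1 := by
  classical
  have hH : A.IsHermitian := by
    rw [Matrix.IsHermitian, Matrix.conjTranspose_eq_transpose_of_trivial]
    exact hA
  rw [hH.spectrum_real_eq_range_eigenvalues, hH.rank_eq_card_non_zero_eigs]
  have hsub : Set.range hH.eigenvalues ⊆
      ((insert 0 ((Finset.univ.filter fun i => hH.eigenvalues i ≠ 0).image
        hH.eigenvalues) : Finset ℝ) : Set ℝ) := by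
    rintro _ ⟨i, rfl⟩
    by_cases h : hH.eigenvalues i = 0
    · rw [h]
      simp
    · apply Finset.mem_coe.mpr
      apply Finset.mem_insert_of_mem
      exact Finset.mem_image.mpr ⟨i, Finset.mem_filter.mpr ⟨Finset.mem_univ _, h⟩, rfl⟩
  refine (Set.ncard_le_ncard hsub (Finset.finite_toSet _)).trans ?_
  rw [Set.ncard_coe_finset]
  refine (Finset.card_insert_le _ _).trans ?_
  refine Nat.succ_le_succ (Finset.card_image_le.trans ?_)
  rw [Fintype.card_subtype]

theorem q_le_mr {n : ℕ} (G : SimpleGraph (Fin n)) : q G ≤ mr G + 1 := by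
  obtain ⟨A, ⟨hA1, hA2⟩, hA⟩ := mr_attained G
  have h1 : q G ≤ (spectrum ℝ A).ncard := Nat.sInf_le ⟨A, hA1, hA2, rfl⟩
  have h2 := ncard_spectrum_le A hA1
  omega

/-- `q(G) + q(Ḡ) ≤ (4|G| + 8)/3` for every graph. -/
theorem result (n : ℕ) (G : SimpleGraph (Fin n)) : 3 * (q G + q Gᶜ) ≤ 4 * n + 8 := by
  have h1 := q_le_mr G
  have h2 := q_le_mr Gᶜ
  have h3 := four_thirds G
  rw [Fintype.card_fin] at h3
  omega

end Pool.Agent.Results.MP_6bf2ef_co.FourThirds
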